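import Pool.Agent.Helper62.NT.Goals

/-! Packet SUBT of project NT (captain helper62). -/

set_option autoImplicit false

noncomputable section

namespace Pool.Agent.Helper75.NT.SUBT

open Pool.Agent.Helper62.NT

variable {H : Type} [MetricSpace H]

theorem dep_nonneg (R : RT H) (x : H) : 0 ≤ R.dep x := (R.gp_nonneg x x).trans (R.gp_le x x)

theorem le_gp (R : RT H) {p q : H} (h : R.le p q) : R.gp p q = R.dep p := by
  refine le_antisymm (R.gp_le p q) ?_
  refine (R.res_eq p q (R.dep p) (dep_nonneg R p) le_rfl h.1).1 ?_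
  rw [R.res_dep, h.2]

theorem le_trans' (R : RT H) {p q r : H} (h1 : R.le p q) (h2 : R.le q r) : R.le p r := by
  refine ⟨h1.1.trans h2.1, ?_⟩
  have := R.res_res r (R.dep p) (R.dep q) (dep_nonneg R p) h1.1 h2.1
  rw [h2.2, h1.2] at this
  exact this.symm

/-- The children of a node. -/
def Good (R : RT H) (A : Set H) (s : ℝ) (K : ℕ) (p : H) (w : ℕ → H × H) : Prop :=
  Function.Injective (fun n => (w n).1) ∧ ∀ n, R.le p (w n).1 ∧ R.dep (w n).1 = R.dep p + s ∧
    R.le (w n).1 (w n).2 ∧ R.dep (w n).2 = R.dep p + 2 * s ∧ Near A (s / 8) (w n).2 ∧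
    SK R A s K (w n).2

theorem ex_good {R : RT H} {A : Set H} {s : ℝ} {K : ℕ} {p : H} (h : SK R A s (K + 1) p) :
    ∃ w, Good R A s K p w := by
  have h' : Set.Infinite {u' : H | R.le p u' ∧ R.dep u' = R.dep p + s ∧
      ∃ u, R.le u' u ∧ R.dep u = R.dep p + 2 * s ∧ Near A (s / 8) u ∧ SK R A s K u} := h
  have e := Set.Infinite.natEmbedding _ h'
  have hc : ∀ n : ℕ, ∃ u, R.le (e n : H) u ∧ R.dep u = R.dep p + 2 * s ∧ Near A (s / 8) u ∧
      SK R A s K u := fun n => (e n).2.2.2
  choose c hc using hc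
  refine ⟨fun n => ((e n : H), c n), ?_, ?_⟩
  · intro a b hab
    exact e.injective (Subtype.ext hab)
  · intro n
    exact ⟨(e n).2.1, (e n).2.2.1, (hc n).1, (hc n).2.1, (hc n).2.2.1, (hc n).2.2.2⟩

open Classical in
/-- The chosen children. -/
def nxt (R : RT H) (A : Set H) (s : ℝ) (K : ℕ) (p : H) : ℕ → H × H :=
  if h : ∃ w, Good R A s K p w then h.choose else fun _ => (p, p)

theorem nxt_good {R : RT H} {A : Set H} {s : ℝ} {K : ℕ} {p : H} (h : SK R A s (K + 1) p) :
    Good R A s K p (nxt R A s K p) := by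
  unfold nxt
  rw [dif_pos (ex_good h)]
  exact (ex_good h).choose_spec

/-- The tree. -/
def F (R : RT H) (A : Set H) (s : ℝ) (N : ℕ) (v : H) : List ℕ → H
  | [] => v
  | n :: u => (nxt R A s (N - (u.length + 1)) (F R A s N v u) n).2

section
variable {R : RT H} {A : Set H} {s : ℝ} {N : ℕ} {v : H}

theorem F_SK (hv : Near A (s / 8) v) (h : SK R A s N v) : ∀ u : List ℕ, u.length ≤ N →
    SK R A s (N - u.length) (F R A s N v u) ∧ Near A (s / 8) (F R A s N v u) := by
  intro u
  induction u with
  | nil => intro _; exact ⟨h, hv⟩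
  | cons n u ih =>
    intro hu
    have hl : u.length + 1 ≤ N := hu
    have h1 := (ih (by omega)).1
    rw [show N - u.length = (N - (u.length + 1)) + 1 by omega] at h1
    have h2 := (nxt_good h1).2 n
    exact ⟨h2.2.2.2.2.2, h2.2.2.2.2.1⟩

theorem F_good (hv : Near A (s / 8) v) (h : SK R A s N v) (u : List ℕ) (hu : u.length + 1 ≤ N) :
    Good R A s (N - (u.length + 1)) (F R A s N v u)
      (nxt R A s (N - (u.length + 1)) (F R A s N v u)) := by
  have h1 := (F_SK hv h u (by omega)).1
  rw [show N - u.length = (N - (u.length + 1)) + 1 by omega] at h1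
  exact nxt_good h1

theorem F_step (hv : Near A (s / 8) v) (h : SK R A s N v) (n : ℕ) (u : List ℕ)
    (hu : u.length + 1 ≤ N) :
    R.le (F R A s N v u) (F R A s N v (n :: u)) ∧
      R.dep (F R A s N v (n :: u)) = R.dep (F R A s N v u) + 2 * s := by
  have h1 := (F_good hv h u hu).2 n
  exact ⟨le_trans' R h1.1 h1.2.2.1, h1.2.2.2.1⟩

theorem F_above (hv : Near A (s / 8) v) (h : SK R A s N v) (n : ℕ) (u : List ℕ) :
    ∀ x : List ℕ, (x ++ n :: u).length ≤ N →
    R.le (nxt R A s (N - (u.length + 1)) (F R A s N v u) n).1 (F R A s N v (x ++ n :: u)) ∧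
      R.dep (F R A s N v (x ++ n :: u)) = R.dep (F R A s N v u) + 2 * (x.length + 1) * s := by
  intro x
  induction x with
  | nil =>
    intro hx
    have hx' : u.length + 1 ≤ N := by simpa using hx
    have h1 := (F_good hv h u hx').2 n
    refine ⟨h1.2.2.1, ?_⟩
    have h2 := h1.2.2.2.1
    show R.dep (nxt R A s (N - (u.length + 1)) (F R A s N v u) n).2 = _
    rw [h2]
    simp
  | cons k x ih =>
    intro hx
    have hx' : (x ++ n :: u).length + 1 ≤ N := by simpa using hx
    obtain ⟨i1, i2⟩ := ih (by omega)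
    obtain ⟨s1, s2⟩ := F_step hv h k (x ++ n :: u) hx'
    refine ⟨le_trans' R i1 s1, ?_⟩
    show R.dep (F R A s N v (k :: (x ++ n :: u))) = _
    rw [s2, i2]
    push_cast [List.length_cons]
    ring

end

theorem t : S_SUBT := by
  intro H _ R A s N v hs hv h
  classical
  obtain ⟨a0, ha0, _⟩ := id hv
  have hm : ∀ u : List ℕ, ∃ q : A, u.length ≤ N → dist (F R A s N v u) q ≤ s / 8 := by
    intro u
    by_cases hu : u.length ≤ N
    · obtain ⟨q, hq, hq2⟩ := (F_SK hv h u hu).2
      exact ⟨⟨q, hq⟩, fun _ => hq2⟩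
    · exact ⟨⟨a0, ha0⟩, fun h => absurd h hu⟩
  choose m hm using hm
  refine ⟨m, ?_, ?_⟩
  · intro n u hu
    obtain ⟨h1, h2⟩ := F_step hv h n u hu
    have h3 : dist (F R A s N v (n :: u)) (F R A s N v u) = 2 * s := by
      rw [R.dist_eq, R.gp_comm, le_gp R h1, h2]
      ring
    have h4 := hm u (by omega)
    have h5 := hm (n :: u) hu
    have h6 : dist (m (n :: u) : H) (m u) ≤ dist (F R A s N v (n :: u)) (m (n :: u)) +
        dist (F R A s N v (n :: u)) (F R A s N v u) + dist (F R A s N v u) (m u) := by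
      have a1 := dist_triangle (m (n :: u) : H) (F R A s N v (n :: u)) (m u)
      have a2 := dist_triangle (F R A s N v (n :: u)) (F R A s N v u) (m u)
      rw [dist_comm (m (n :: u) : H) (F R A s N v (n :: u))] at a1
      linarith
    show dist (m (n :: u) : H) (m u) ≤ 9 / 4 * s
    linarith
  · intro x y u n n' hn hxy hl
    have hl' : (y ++ n' :: u).length ≤ N := by
      rw [List.length_append, ← hxy]
      rw [List.length_append] at hl
      exact hl
    obtain ⟨a1, a2⟩ := F_above hv h n u x hl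
    obtain ⟨b1, b2⟩ := F_above hv h n' u y hl'
    have hu1 : u.length + 1 ≤ N := by
      rw [List.length_append, List.length_cons] at hl
      omega
    have hg := F_good hv h u hu1
    set W := nxt R A s (N - (u.length + 1)) (F R A s N v u) with hW
    have hne : (W n).1 ≠ (W n').1 := fun e => hn (hg.1 e)
    have d1 := (hg.2 n).2.1
    have d2 := (hg.2 n').2.1
    set a := F R A s N v (x ++ n :: u) with ha
    set b := F R A s N v (y ++ n' :: u) with hb
    set d := R.dep (F R A s N v u) with hd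
    have hd0 : 0 ≤ d := dep_nonneg R _
    have hgp : R.gp a b < d + s := by
      by_contra hcon
      push Not at hcon
      apply hne
      have e := (R.res_eq a b (d + s) (by linarith) (by rw [← d1]; exact a1.1)
        (by rw [← d2]; exact b1.1)).2 hcon
      have e1 := a1.2
      have e2 := b1.2
      rw [d1] at e1
      rw [d2] at e2
      rw [← e1, ← e2, e]
    have hxl : (0 : ℝ) ≤ (x.length : ℝ) := Nat.cast_nonneg _
    have hyx : (y.length : ℝ) = x.length := by rw [hxy]
    have h3 : 2 * (x.length + 1) * s ≤ dist a b := by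
      rw [R.dist_eq, a2, b2, hyx]
      nlinarith
    have h4 := hm _ hl
    have h5 := hm _ hl'
    have h6 : dist a b ≤ dist a (m (x ++ n :: u)) + dist (m (x ++ n :: u) : H) (m (y ++ n' :: u)) +
        dist b (m (y ++ n' :: u)) := by
      have t1 := dist_triangle a (m (x ++ n :: u) : H) b
      have t2 := dist_triangle (m (x ++ n :: u) : H) (m (y ++ n' :: u)) b
      rw [dist_comm (m (y ++ n' :: u) : H) b] at t2
      linarith
    show 3 / 2 * (x.length + 1) * s ≤ dist (m (x ++ n :: u) : H) (m (y ++ n' :: u))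
    nlinarith

end Pool.Agent.Helper75.NT.SUBT
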